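import Pool.Agent.Lib.MP_fb3619_al.Base3

universe u

namespace Pool.Agent.FourGp.H45

variable {G : Type u} [Group G] {H K : Subgroup G} {a b c : G}

/-- The value of the product `J_c × J_a → J_b` by joining and intersecting. -/
theorem bp_mul_val (h : Cfg H K a b c) (γ : J h) (α : J h.rot) :
    J.bp h.rot.rot (J.mulJ h.rot.rot γ α) =
      (inc H K).cr ((inc H K).cr (J.ap h γ) (J.ap h.rot (J.jinv h.rot α))) h.pb := by
  have hg := h.geo
  have e1 : J.bp h.rot.rot (J.mulJ h.rot.rot γ α) =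
      (inc H K).fm h.pb (J.ap h.rot (J.jinv h.rot α)) h.pb (J.bp h γ) h.pa :=
    J.bp_mulJ h.rot.rot γ α
  rw [e1]
  have e2 : (inc H K).pr h.pb (J.bp h γ) h.pa = J.ap h γ := by
    unfold Inc.pr
    have e3 : (inc H K).cr h.pa h.pb = h.pc := Subtype.ext (by rw [h.cr_val h.pab]; exact h.ab)
    rw [e3, hg.cr_comm (fun e => hg.perp_st _ _ (J.perp_bc h γ) (hg.st_symm _ _ e)), J.cr_bc]
  unfold Inc.fm
  rw [e2]
  rfl

/-- Different types. -/
theorem nst_ap_ap (h : Cfg H K a b c) (γ : J h) (α : J h.rot) :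
    ¬ (inc H K).st (J.ap h γ) (J.ap h.rot α) := by
  have hg := h.geo
  intro e
  have h1 := J.st_a h γ
  have h2 : (inc H K).st h.pb (J.ap h.rot α) := J.st_a h.rot α
  exact hg.perp_st _ _ h.pab (hg.st_trans _ _ _ (hg.st_trans _ _ _ h1 e) (hg.st_symm _ _ h2))

/-- The case `β = 0`. -/
theorem inc_zero (h : Cfg H K a b c) (l : Pt H) (γ : J h) (β' : J h.rot.rot)
    (α' : J h.rot) (hl : IsC h.rot.rot l β' α') :
    (inc H K).perp (J.ap h γ) l ↔ 0 = β' + mulH h.rot.rot γ α' := by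
  have hg := h.geo
  have hneg := (part2_neg G H K b c a h.rot).1 α'
  have hn : J.jinv h.rot (-α') = α' := by
    apply J.ext
    rw [J.jinv_val, hneg, inv_inv]
  have key := bp_mul_val h γ (-α')
  rw [hn] at key
  have hm : mulH h.rot.rot γ (-α') = J.mulJ h.rot.rot γ (-α') := rfl
  rw [← hm, map_neg] at key
  -- `l ⟂ a β'`, `l ⟂ b α'`
  have hp : (inc H K).perp l (J.bp h.rot.rot β') := hl.p
  have hq : (inc H K).perp l (J.ap h.rot α') := hl.q
  have hbb : (inc H K).perp (J.bp h.rot.rot β') h.pb := J.perp_bc h.rot.rot β'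
  have hlst : (inc H K).st h.pc l := hl.s
  have hlb : ¬ (inc H K).st l h.pb := fun e =>
    hg.perp_st _ _ h.pcb (hg.st_trans _ _ _ hlst e)
  have hns := nst_ap_ap h γ α'
  constructor
  · intro hperp
    have e1 : l = (inc H K).cr (J.ap h γ) (J.ap h.rot α') :=
      hg.uniq _ _ _ hns hperp (hg.perp_symm _ _ hq)
    rw [← e1] at key
    have e2 : J.bp h.rot.rot β' = (inc H K).cr l h.pb :=
      hg.uniq _ _ _ hlb hp (hg.perp_symm _ _ hbb)
    rw [← e2] at key
    have e3 := J.bp_inj h.rot.rot key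
    rw [← e3, neg_add_cancel]
  · intro e0
    have e1 : -(mulH h.rot.rot γ α') = β' := neg_eq_of_add_eq_zero_left e0.symm
    rw [e1] at key
    set l0 := (inc H K).cr (J.ap h γ) (J.ap h.rot α') with hl0
    have p1 : (inc H K).perp (J.ap h γ) l0 := hg.cr_l _ _ hns
    have p2 : (inc H K).perp (J.ap h.rot α') l0 := hg.cr_r _ _ hns
    have hl0st : (inc H K).st h.pc l0 := by
      obtain ⟨t, ht, hs⟩ := hg.label
      have h1 := hg.perp_st _ _ p1
      have h2 := hg.perp_st _ _ p2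
      have h3 := J.st_a h γ
      have h4 : (inc H K).st h.pb (J.ap h.rot α') := J.st_a h.rot α'
      have h5 := hg.perp_st _ _ h.pab
      have h6 := hg.perp_st _ _ h.pbc
      have h7 := hg.perp_st _ _ h.pca
      rw [hs] at *
      have := ht l0; have := ht h.pa; have := ht h.pb; have := ht h.pc
      omega
    have hl0b : ¬ (inc H K).st l0 h.pb := fun e =>
      hg.perp_st _ _ h.pcb (hg.st_trans _ _ _ hl0st e)
    have p3 : (inc H K).perp l0 (J.bp h.rot.rot β') := by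
      rw [key]; exact hg.cr_l _ _ hl0b
    have hne : ¬ (inc H K).st (J.bp h.rot.rot β') (J.ap h.rot α') := by
      intro e
      have h1 : (inc H K).st h.pa (J.bp h.rot.rot β') := J.st_b h.rot.rot β'
      have h2 : (inc H K).st h.pb (J.ap h.rot α') := J.st_a h.rot α'
      exact hg.perp_st _ _ h.pab (hg.st_trans _ _ _ (hg.st_trans _ _ _ h1 e)
        (hg.st_symm _ _ h2))
    have e2 := hg.uniq _ _ _ hne (hg.perp_symm _ _ hp) (hg.perp_symm _ _ hq)
    have e3 := hg.uniq _ _ _ hne (hg.perp_symm _ _ p3) p2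
    rw [e2, ← e3]
    exact p1

/-- INC. -/
theorem inc.{v} (h1 : CoorS.{v}) (h2 : TranS.{v}) : IncS.{v} := by
  intro G _ H K a b c h z l γ β β' α' hz hl
  obtain ⟨φ, hφ, e1, -⟩ := J.exists_trl h.rot.rot (-β)
  obtain ⟨t1, t2⟩ := (h2 G H K a b c h).1 φ hφ (-β) e1
  have hz' := t1 z γ β hz
  rw [neg_add_cancel] at hz'
  have hz'' : φ.1 z = J.ap h γ :=
    (h1 G H K a b c h).2.2.2.2.1 _ _ _ _ hz' ((h1 G H K a b c h).2.2.2.2.2.1 γ)
  have hl' := t2 l β' α' hl
  have hc := h.geo.nn_col hφ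
  rw [hc.inc z l, hz'', inc_zero h _ γ _ α' hl', add_assoc]
  constructor
  · intro e
    exact eq_of_sub_eq_zero (by rw [sub_eq_neg_add, ← neg_eq_zero, e]; abel)
  · intro e
    rw [← e, neg_add_cancel]

end Pool.Agent.FourGp.H45
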