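import Pool.Agent.Lib.MP_fb3619_al.H45.Common

universe u

namespace Pool.Agent.FourGp.H45

variable {G : Type u} [Group G] {H K : Subgroup G} {a b c : G}

/-- `H / K` has exponent two. -/
theorem sq_mem (h : Cfg H K a b c) {g : G} (hg : g ∈ H) : g * g ∈ K := by
  have aux : ∀ x : G, x ∈ H → x * x = 1 → g * x ∈ K → g * g ∈ K := by
    intro x hx hxx e
    have e1 : g * g = (g * x) * (x * (g * x) * x) := by
      calc g * g = g * (1 : G) * g * 1 := by group
        _ = g * (x * x) * g * (x * x) := by rw [hxx]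
        _ = _ := by group
    rw [e1]
    exact K.mul_mem e (conj_mem h hx hxx e)
  rcases h.top g hg with e | e | e | e
  · exact K.mul_mem e e
  · exact aux a h.ha h.haa e
  · exact aux b h.hb h.hbb e
  · exact aux c h.hc h.hcc e

/-- The basic facts on `iota g`, `g ∈ H \ K`. -/
theorem iota_facts (h : Cfg H K a b c) {g : G} (hg : g ∈ H) (hgK : g ∉ K) :
    IsPt H (iota g) ∧ g⁻¹ * iota g ∈ K ∧ iota g ∉ K ∧ (∃ m : ℕ, iota g = g ^ m) := by
  have h1 : g * g ∈ K := sq_mem h hg
  obtain ⟨n, hn⟩ := h.odd _ h1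
  have hdvd : orderOf (g * g) ∣ 2 * n + 1 := orderOf_dvd_of_pow_eq_one hn
  have hodd : Odd (orderOf (g * g)) := Odd.of_dvd_nat (odd_two_mul_add_one n) hdvd
  obtain ⟨q, hq⟩ := hodd
  have hi : iota g = g * (g * g) ^ q := by
    unfold iota
    rw [hq, pow_succ', pow_mul, pow_two]
  have h2 : g⁻¹ * iota g ∈ K := by
    rw [hi, ← mul_assoc, inv_mul_cancel, one_mul]
    exact K.pow_mem h1 q
  have h3 : iota g ∉ K := by
    intro e
    apply hgK
    have := K.mul_mem e (K.inv_mem h2)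
    have e2 : iota g * (g⁻¹ * iota g)⁻¹ = g := by group
    rwa [e2] at this
  refine ⟨⟨H.pow_mem hg _, ?_, ?_⟩, h2, h3, _, rfl⟩
  · unfold iota
    rw [← mul_pow_mul_self g, pow_orderOf_eq_one]
  · intro e
    apply h3
    rw [e]
    exact K.one_mem
where
  mul_pow_mul_self (g : G) {m : ℕ} : (g * g) ^ m = g ^ m * g ^ m := by
    rw [← pow_two, ← pow_two, ← pow_mul, ← pow_mul, mul_comm]

/-- An involution inverting `g` commutes with `iota g`. -/
theorem comm_iota {x g : G} (hx : x * x = 1) (hxg : x * g * x = g⁻¹)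
    (hi : iota g * iota g = 1) : x * iota g = iota g * x := by
  have h1 : x * iota g * x = iota g := by
    unfold iota
    rw [conj_pow' hx, hxg, inv_pow]
    exact inv_eq_of_mul_eq_one_right hi
  calc x * iota g = x * iota g * (x * x) := by rw [hx, mul_one]
    _ = (x * iota g * x) * x := by group
    _ = iota g * x := by rw [h1]

theorem inv_l {x y : G} (hx : x * x = 1) (hy : y * y = 1) : x * (x * y) * x = (x * y)⁻¹ := by
  rw [mul_inv_rev, inv_eq_of_mul_eq_one_right hx, inv_eq_of_mul_eq_one_right hy, ← mul_assoc, hx,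
    one_mul]

theorem inv_r {x y : G} (hx : x * x = 1) (hy : y * y = 1) : y * (x * y) * y = (x * y)⁻¹ := by
  rw [mul_inv_rev, inv_eq_of_mul_eq_one_right hx, inv_eq_of_mul_eq_one_right hy, mul_assoc,
    mul_assoc, hy, mul_one]

/-- Existence of the common perpendicular. -/
theorem cr_facts (h : Cfg H K a b c) (x y : Pt H) (hxy : x.1 * y.1 ∉ K) :
    ((inc H K).cr x y).1 = iota (x.1 * y.1) ∧ (inc H K).perp x ((inc H K).cr x y) ∧
      (inc H K).perp y ((inc H K).cr x y) := by
  obtain ⟨hp, h2, h3, m, hm⟩ := iota_facts h (H.mul_mem x.2.1 y.2.1) hxy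
  have e : ((inc H K).cr x y).1 = iota (x.1 * y.1) := by
    have : (inc H K).cr x y = ⟨iota (x.1 * y.1), hp⟩ := dif_pos hp
    rw [this]
  have hxx := x.2.2.1
  have hyy := y.2.2.1
  refine ⟨e, ⟨?_, ?_⟩, ⟨?_, ?_⟩⟩
  · show x.1 * ((inc H K).cr x y).1 = ((inc H K).cr x y).1 * x.1
    rw [e]
    exact comm_iota hxx (inv_l hxx hyy) hp.2.1
  · show x.1 ≠ ((inc H K).cr x y).1
    rw [e]
    intro e1
    apply (types h y.2).1
    rw [← e1, mul_inv_rev, inv_eq_of_mul_eq_one_right hxx, inv_eq_of_mul_eq_one_right hyy,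
      mul_assoc, hxx, mul_one] at h2
    exact h2
  · show y.1 * ((inc H K).cr x y).1 = ((inc H K).cr x y).1 * y.1
    rw [e]
    exact comm_iota hyy (inv_r hxx hyy) hp.2.1
  · show y.1 ≠ ((inc H K).cr x y).1
    rw [e]
    intro e1
    apply (types h x.2).1
    rw [← e1, mul_inv_rev, inv_eq_of_mul_eq_one_right hxx, inv_eq_of_mul_eq_one_right hyy] at h2
    -- y x y ∈ K
    have := conj_mem h y.2.1 hyy h2
    have e2 : y.1 * (y.1 * x.1 * y.1) * y.1 = x.1 := by
      calc y.1 * (y.1 * x.1 * y.1) * y.1 = (y.1 * y.1) * x.1 * (y.1 * y.1) := by group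
        _ = x.1 := by rw [hyy, one_mul, mul_one]
    rwa [e2] at this

/-- Uniqueness of the common perpendicular. -/
theorem cr_uniq (h : Cfg H K a b c) (x y z : Pt H) (hxy : x.1 * y.1 ∉ K)
    (hxz : (inc H K).perp x z) (hyz : (inc H K).perp y z) : z.1 = iota (x.1 * y.1) := by
  obtain ⟨hp, h2, h3, m, hm⟩ := iota_facts h (H.mul_mem x.2.1 y.2.1) hxy
  have hxx := x.2.2.1
  have hyy := y.2.2.1
  have hzz := z.2.2.1
  have h4 := reba_aux h x.2 z.2 hxz.1 hxz.2
  have h5 := reba_aux h y.2 z.2 hyz.1 hyz.2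
  have h6 : y.1 * (x.1 * z.1) ∈ K := by
    rcases h4.top y.1 y.2.1 with e | e | e | e
    · exact absurd e (types h y.2).1
    · exfalso
      apply hxy
      have := K.inv_mem e
      rwa [mul_inv_rev, inv_eq_of_mul_eq_one_right hxx, inv_eq_of_mul_eq_one_right hyy] at this
    · exact absurd e h5.ec
    · exact e
  set g := x.1 * y.1 with hg
  have hgi : g⁻¹ = y.1 * x.1 := by
    rw [hg, mul_inv_rev, inv_eq_of_mul_eq_one_right hxx, inv_eq_of_mul_eq_one_right hyy]
  have h7 : g⁻¹ * z.1 ∈ K := by rw [hgi, mul_assoc]; exact h6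
  -- iota g = g k₁, z = g k₂
  have h8 : (iota g)⁻¹ * z.1 ∈ K := by
    have := K.mul_mem (K.inv_mem h2) h7
    have e : (g⁻¹ * iota g)⁻¹ * (g⁻¹ * z.1) = (iota g)⁻¹ * z.1 := by group
    rwa [e] at this
  rw [inv_eq_of_mul_eq_one_right hp.2.1] at h8
  have hcomm : iota g * z.1 = z.1 * iota g := by
    have c1 : Commute z.1 x.1 := hxz.1.symm
    have c2 : Commute z.1 y.1 := hyz.1.symm
    have c3 : Commute z.1 g := c1.mul_right c2
    exact ((c3.pow_right (orderOf (g * g))).eq).symm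
  have h9 : iota g * z.1 = 1 := by
    refine eq_one_of_sq h h8 ?_
    calc iota g * z.1 * (iota g * z.1) = iota g * z.1 * (z.1 * iota g) := by rw [hcomm]
      _ = iota g * (z.1 * z.1) * iota g := by group
      _ = 1 := by rw [hzz, mul_one, hp.2.1]
  have h10 := eq_inv_of_mul_eq_one_right h9
  rw [h10, inv_eq_of_mul_eq_one_right hp.2.1]

theorem st_trans_aux {x y z : G} (hy : y * y = 1) (h1 : x * y ∈ K) (h2 : y * z ∈ K) :
    x * z ∈ K := by
  have := K.mul_mem h1 h2
  have e : x * y * (y * z) = x * z := by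
    calc x * y * (y * z) = x * (y * y) * z := by group
      _ = x * z := by rw [hy, mul_one]
  rwa [e] at this

theorem st_symm_aux {x y : G} (hx : x * x = 1) (hy : y * y = 1) (h1 : x * y ∈ K) :
    y * x ∈ K := by
  have := K.inv_mem h1
  rwa [mul_inv_rev, inv_eq_of_mul_eq_one_right hx, inv_eq_of_mul_eq_one_right hy] at this

theorem perp_not_st (h : Cfg H K a b c) (x y : Pt H) (hxy : (inc H K).perp x y) :
    ¬ (inc H K).st x y := (reba_aux h x.2 y.2 hxy.1 hxy.2).ec

/-- The involutions form a geometry. -/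
theorem isGeo (h : Cfg H K a b c) : (inc H K).IsGeo where
  st_refl x := by
    show x.1 * x.1 ∈ K
    rw [x.2.2.1]; exact K.one_mem
  st_symm x y e := st_symm_aux x.2.2.1 y.2.2.1 e
  st_trans x y z e f := st_trans_aux y.2.2.1 e f
  three x y z w h1 h2 h3 h4 h5 := by
    have key : ∀ p q : Pt H, ∀ t : G, t * t = 1 → p.1 * t ∈ K → q.1 * t ∈ K →
        (inc H K).st p q := by
      intro p q t ht h6 h7
      exact st_trans_aux ht h6 (st_symm_aux q.2.2.1 ht h7)
    have ka := fun p q => key p q a h.haa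
    have kb := fun p q => key p q b h.hbb
    have kc := fun p q => key p q c h.hcc
    rcases (types h x.2).2 with ex | ex | ex <;> rcases (types h y.2).2 with ey | ey | ey <;>
    rcases (types h z.2).2 with ez | ez | ez <;> rcases (types h w.2).2 with ew | ew | ew <;>
    first
      | (exact ka _ _ ew ez)
      | (exact kb _ _ ew ez)
      | (exact kc _ _ ew ez)
      | (exact absurd (ka _ _ ex ey) h1)
      | (exact absurd (kb _ _ ex ey) h1)
      | (exact absurd (kc _ _ ex ey) h1)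
      | (exact absurd (ka _ _ ex ez) h2)
      | (exact absurd (kb _ _ ex ez) h2)
      | (exact absurd (kc _ _ ex ez) h2)
      | (exact absurd (ka _ _ ey ez) h3)
      | (exact absurd (kb _ _ ey ez) h3)
      | (exact absurd (kc _ _ ey ez) h3)
      | (exact absurd (ka _ _ ew ex) h4)
      | (exact absurd (kb _ _ ew ex) h4)
      | (exact absurd (kc _ _ ew ex) h4)
      | (exact absurd (ka _ _ ew ey) h5)
      | (exact absurd (kb _ _ ew ey) h5)
      | (exact absurd (kc _ _ ew ey) h5)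
  perp_symm x y e := ⟨e.1.symm, e.2.symm⟩
  perp_st x y e := perp_not_st h x y e
  cr_l x y e := (cr_facts h x y e).2.1
  cr_r x y e := (cr_facts h x y e).2.2
  uniq x y z e f g := by
    apply Subtype.ext
    rw [(cr_facts h x y e).1]
    exact cr_uniq h x y z e f g

/-- GEOM. (The hypothesis is not used.) -/
theorem geom.{v} (_h1 : RebaS.{v}) : GeomS.{v} := by
  intro G _ H K a b c h
  refine ⟨isGeo h, fun x y e => (cr_facts h x y e).1, fun x y e => ?_⟩
  have h1 := reba_aux h x.2 y.2 e.1 e.2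
  have hxx := x.2.2.1
  have hyy := y.2.2.1
  have hne : x.1 * y.1 ≠ 1 := by
    intro e1
    apply h1.ec
    rw [e1]
    exact K.one_mem
  have hp : IsPt H (x.1 * y.1) := ⟨h1.hc, h1.hcc, hne⟩
  have := (isGeo h).uniq x y ⟨_, hp⟩ (perp_not_st h x y e) ⟨?_, ?_⟩ ⟨?_, ?_⟩
  · rw [← this]
  · show x.1 * (x.1 * y.1) = x.1 * y.1 * x.1
    rw [mul_assoc x.1 y.1 x.1, ← e.1]
  · intro e1
    have e2 : x.1 = x.1 * y.1 := e1
    exact y.2.2.2 (mul_eq_left.mp e2.symm)
  · show y.1 * (x.1 * y.1) = x.1 * y.1 * y.1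
    rw [← mul_assoc, ← e.1]
  · intro e1
    have e2 : y.1 = x.1 * y.1 := e1
    exact x.2.2.2 (mul_eq_right.mp e2.symm)

end Pool.Agent.FourGp.H45
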