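import Pool.Agent.Lib.MP_fb3619_al.H45.Common

namespace Pool.Agent.FourGp.H45

theorem invt.{u} : InvtS.{u} := fun _ _ _ _ _ _ _ h _ hk hak => invt_aux h hk hak

end Pool.Agent.FourGp.H45
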