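import Pool.Agent.Lib.MP_fb3619_al.Iface

universe u

namespace Pool.Agent.FourGp.H45

/-- The homomorphism from `{1, -1}` given by an involution. -/
def unitHom {M : Type u} [Monoid M] (s : M) (hs : s * s = 1) : ℤˣ →* M where
  toFun x := if x = 1 then 1 else s
  map_one' := by simp
  map_mul' x y := by
    rcases Int.units_eq_one_or x with rfl | rfl <;> rcases Int.units_eq_one_or y with rfl | rfl <;>
      simp [hs]

theorem unitHom_neg {M : Type u} [Monoid M] (s : M) (hs : s * s = 1) : unitHom s hs (-1) = s := by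
  simp [unitHom]

/-- The action of the four-group. -/
def act {K : Type u} [Group K] (σ τ : K ≃* K) (h : FixP K σ τ) : ℤˣ × ℤˣ →* MulAut K :=
  MonoidHom.noncommCoprod
    (unitHom (σ : MulAut K) (MulEquiv.ext fun k => h.ss k))
    (unitHom (τ : MulAut K) (MulEquiv.ext fun k => h.tt k))
    (by
      intro x y
      rcases Int.units_eq_one_or x with rfl | rfl
      · rw [map_one]; exact Commute.one_left _
      rcases Int.units_eq_one_or y with rfl | rfl
      · rw [map_one]; exact Commute.one_right _
      rw [unitHom_neg, unitHom_neg]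
      exact MulEquiv.ext fun k => h.st k)

theorem act_a {K : Type u} [Group K] (σ τ : K ≃* K) (h : FixP K σ τ) (k : K) :
    act σ τ h (-1, 1) k = σ k := by
  unfold act
  rw [MonoidHom.noncommCoprod_apply, unitHom_neg, map_one, mul_one]

theorem act_b {K : Type u} [Group K] (σ τ : K ≃* K) (h : FixP K σ τ) (k : K) :
    act σ τ h (1, -1) k = τ k := by
  unfold act
  rw [MonoidHom.noncommCoprod_apply, unitHom_neg, map_one, one_mul]

/-- SEMI. -/
theorem semi.{v} : SemiS.{v} := by
  intro K _ σ τ hJ
  have hF := hJ.toFixP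
  let φ := act σ τ hF
  let G := K ⋊[φ] (ℤˣ × ℤˣ)
  let N : Subgroup G := (SemidirectProduct.inl : K →* G).range
  have hN : N = (SemidirectProduct.rightHom : G →* ℤˣ × ℤˣ).ker :=
    SemidirectProduct.range_inl_eq_ker_rightHom
  have hmem : ∀ x : G, x ∈ N ↔ x.right = 1 := by
    intro x
    rw [hN, MonoidHom.mem_ker]
    rfl
  let a : G := SemidirectProduct.inr (-1, 1)
  let b : G := SemidirectProduct.inr (1, -1)
  let c : G := SemidirectProduct.inr (-1, -1)
  have hsq : ∀ v : ℤˣ × ℤˣ, (SemidirectProduct.inr v : G) * SemidirectProduct.inr v = 1 := by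
    intro v
    rw [← map_mul]
    have : v * v = 1 := by revert v; decide
    rw [this, map_one]
  have hac : ∀ (v : ℤˣ × ℤˣ) (k : K), (SemidirectProduct.inr v : G) * SemidirectProduct.inl k =
      SemidirectProduct.inl (φ v k) * SemidirectProduct.inr v := by
    intro v k
    rw [SemidirectProduct.inl_aut, mul_assoc, ← map_mul, inv_mul_cancel, map_one, mul_one]
  have hC : Cfg ⊤ N a b c := by
    refine ⟨le_top, Subgroup.mem_top _, Subgroup.mem_top _, Subgroup.mem_top _, ?_, hsq _, hsq _,
      hsq _, ?_, ?_, ?_, ?_, ?_, ?_, ?_⟩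
    · intro h _ k hk
      rw [hmem] at hk ⊢
      rw [SemidirectProduct.mul_right, SemidirectProduct.mul_right, hk,
        SemidirectProduct.inv_right]
      simp
    · show SemidirectProduct.inr _ * SemidirectProduct.inr _ * SemidirectProduct.inr _ = 1
      rw [← map_mul, ← map_mul]
      have : ((-1, 1) : ℤˣ × ℤˣ) * (1, -1) * (-1, -1) = 1 := by decide
      rw [this, map_one]
    · rw [hmem]; show ((-1, 1) : ℤˣ × ℤˣ) ≠ 1; decide
    · rw [hmem]; show ((1, -1) : ℤˣ × ℤˣ) ≠ 1; decide
    · rw [hmem]; show ((-1, -1) : ℤˣ × ℤˣ) ≠ 1; decide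
    · intro h _
      rw [hmem, hmem, hmem, hmem, SemidirectProduct.mul_right, SemidirectProduct.mul_right,
        SemidirectProduct.mul_right]
      show h.right = 1 ∨ h.right * (-1, 1) = 1 ∨ h.right * (1, -1) = 1 ∨ h.right * (-1, -1) = 1
      generalize h.right = v
      revert v
      decide
    · rintro _ ⟨k, rfl⟩
      obtain ⟨n, hn⟩ := hF.odd k
      exact ⟨n, by rw [← map_pow, hn, map_one]⟩
    · rintro _ ⟨k, rfl⟩ h1 h2
      have e1 : σ k = k := by
        have h3 := hac (-1, 1) k
        have h4 : SemidirectProduct.inl (φ (-1, 1) k) * (a : G) = SemidirectProduct.inl k * a :=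
          h3.symm.trans h1
        have h5 := SemidirectProduct.inl_injective (mul_right_cancel h4)
        rwa [show φ (-1, 1) k = σ k from act_a σ τ hF k] at h5
      have e2 : τ k = k := by
        have h3 := hac (1, -1) k
        have h4 : SemidirectProduct.inl (φ (1, -1) k) * (b : G) = SemidirectProduct.inl k * b :=
          h3.symm.trans h2
        have h5 := SemidirectProduct.inl_injective (mul_right_cancel h4)
        rwa [show φ (1, -1) k = τ k from act_b σ τ hF k] at h5
      rw [hF.fix k e1 e2, map_one]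
  refine ⟨G, inferInstance, N, a, b, c, hC, ?_, ?_, ?_⟩
  · have := hJ.fg
    rw [← Group.fg_iff_subgroup_fg]
    exact Group.fg_range _
  · have := hJ.inf
    exact Infinite.of_injective (fun k : K => (⟨SemidirectProduct.inl k, ⟨k, rfl⟩⟩ : N))
      (fun x y e => SemidirectProduct.inl_injective (congrArg Subtype.val e))
  · intro M hMN hM hne
    rw [← Subgroup.index_comap]
    have hinv : ∀ (v : ℤˣ × ℤˣ) (k : K), SemidirectProduct.inl k ∈ M →
        (SemidirectProduct.inl (φ v k) : G) ∈ M := by
      intro v k hk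
      rw [SemidirectProduct.inl_aut]
      have := hM ((SemidirectProduct.inr v : G)⁻¹) (Subgroup.mem_top _) _ hk
      rwa [inv_inv, ← map_inv] at this
    refine hJ.ji _ ⟨fun n hn k => ?_⟩ (fun n hn => ?_) (fun n hn => ?_) ?_
    · rw [Subgroup.mem_comap] at hn ⊢
      have := hM (SemidirectProduct.inl k)⁻¹ (Subgroup.mem_top _) _ hn
      rw [inv_inv] at this
      rwa [map_mul, map_mul, map_inv]
    · rw [Subgroup.mem_comap] at hn ⊢
      have := hinv (-1, 1) n hn
      rwa [show φ (-1, 1) n = σ n from act_a σ τ hF n] at this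
    · rw [Subgroup.mem_comap] at hn ⊢
      have := hinv (1, -1) n hn
      rwa [show φ (1, -1) n = τ n from act_b σ τ hF n] at this
    · intro e
      apply hne
      rw [eq_bot_iff]
      intro m hm
      obtain ⟨k, rfl⟩ := hMN hm
      have : k ∈ M.comap (SemidirectProduct.inl : K →* G) := hm
      rw [e, Subgroup.mem_bot] at this
      rw [this, map_one]
      exact Subgroup.mem_bot.mpr rfl

end Pool.Agent.FourGp.H45
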