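import Pool.Agent.Lib.MP_fb3619_al.Iface

/-! Common facts on configurations: square roots in `K`, conjugation of configurations. -/

universe u

namespace Pool.Agent.FourGp.H45

variable {G : Type u} [Group G] {H K : Subgroup G} {a b c : G}

/-- Square roots: a power of `k`. -/
theorem sqrt_pow (h : Cfg H K a b c) {k : G} (hk : k ∈ K) : ∃ n : ℕ, k ^ n * k ^ n = k := by
  obtain ⟨n, hn⟩ := h.odd k hk
  refine ⟨n + 1, ?_⟩
  rw [← pow_add, show n + 1 + (n + 1) = 2 * n + 1 + 1 by ring, pow_succ, hn, one_mul]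

/-- Uniqueness of square roots. -/
theorem sqrt_uniq (h : Cfg H K a b c) {r s : G} (hr : r ∈ K) (hs : s ∈ K) (e : r * r = s * s) :
    r = s := by
  obtain ⟨n, hn⟩ := h.odd r hr
  obtain ⟨m, hm⟩ := h.odd s hs
  have key : ∀ x : G, ∀ q : ℕ, x ^ (2 * q + 1) = 1 → x = (x * x) ^ (q + 1) := by
    intro x q hq
    rw [← pow_two, ← pow_mul, show 2 * (q + 1) = 2 * q + 1 + 1 by ring, pow_succ, hq, one_mul]
  have h1 : r ^ (2 * (2 * n * m + n + m) + 1) = 1 := by
    rw [show 2 * (2 * n * m + n + m) + 1 = (2 * n + 1) * (2 * m + 1) by ring, pow_mul, hn, one_pow]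
  have h2 : s ^ (2 * (2 * n * m + n + m) + 1) = 1 := by
    rw [show 2 * (2 * n * m + n + m) + 1 = (2 * m + 1) * (2 * n + 1) by ring, pow_mul, hm, one_pow]
  rw [key r _ h1, key s _ h2, e]

/-- Involutions of `K` are trivial. -/
theorem eq_one_of_sq (h : Cfg H K a b c) {k : G} (hk : k ∈ K) (e : k * k = 1) : k = 1 :=
  sqrt_uniq h hk K.one_mem (by rw [e, one_mul])

/-- Conjugate of a power by an involution. -/
theorem conj_pow' {x k : G} (hx : x * x = 1) (n : ℕ) : x * k ^ n * x = (x * k * x) ^ n := by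
  have hi : x⁻¹ = x := inv_eq_of_mul_eq_one_right hx
  have := conj_pow (i := n) (a := x) (b := k)
  rw [hi] at this
  exact this.symm

theorem comm_pow {x k : G} (e : x * k = k * x) (n : ℕ) : x * k ^ n = k ^ n * x :=
  ((show Commute x k from e).pow_right n)

/-- An involution `x` of `H` normalises `K`. -/
theorem conj_mem (h : Cfg H K a b c) {x k : G} (hxH : x ∈ H) (hx : x * x = 1) (hk : k ∈ K) :
    x * k * x ∈ K := by
  have := h.nor x hxH k hk
  rwa [inv_eq_of_mul_eq_one_right hx] at this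

/-- An involution `x` inverts `k⁻¹ (x k x)`. -/
theorem inv_comm {x k : G} (hx : x * x = 1) :
    x * (k⁻¹ * (x * k * x)) * x = (k⁻¹ * (x * k * x))⁻¹ := by
  have hi : x⁻¹ = x := inv_eq_of_mul_eq_one_right hx
  rw [mul_inv_rev, mul_inv_rev, mul_inv_rev, inv_inv, hi]
  calc x * (k⁻¹ * (x * k * x)) * x = x * k⁻¹ * x * k * (x * x) := by group
    _ = x * (k⁻¹ * x) * k := by rw [hx]; group

/-- If `x` inverts `k ∈ K`, it inverts the square root too. -/
theorem inv_sqrt {x k : G} (hx : x * x = 1)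
    (e : x * k * x = k⁻¹) (n : ℕ) : x * k ^ n * x = (k ^ n)⁻¹ := by
  rw [conj_pow' hx, e, inv_pow]

/-- INVT in local form. -/
theorem invt_aux (h : Cfg H K a b c) {k : G} (hk : k ∈ K) (hak : a * k = k * a) :
    b * k * b = k⁻¹ := by
  set d := k⁻¹ * (b * k * b) with hd
  have hdK : d ∈ K := K.mul_mem (K.inv_mem hk) (conj_mem h h.hb h.hbb hk)
  have hbd : b * d * b = d⁻¹ := inv_comm h.hbb
  -- `a` commutes with `b k b`
  have hab : a * b = b * a := by rw [h.ab, h.ba]
  have had : a * d = d * a := by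
    have c1 : Commute a k := hak
    have c2 : Commute a b := hab
    exact (c1.inv_right).mul_right ((c2.mul_right c1).mul_right c2)
  obtain ⟨n, hn⟩ := sqrt_pow h hdK
  set r := d ^ n with hr
  have hrK : r ∈ K := K.pow_mem hdK n
  have hbr : b * r * b = r⁻¹ := inv_sqrt h.hbb hbd n
  have har : a * r = r * a := comm_pow had n
  have hkr : k * r = (b * k * b) * r⁻¹ := by
    have : k * d = b * k * b := by rw [hd]; group
    rw [← this, ← hn]; group
  have hone : k * r = 1 := by
    refine h.cent _ (K.mul_mem hk hrK) ?_ ?_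
    · exact (show Commute a k from hak).mul_right har
    · -- b (k r) = (k r) b
      have e1 : b * (k * r) * b = k * r := by
        calc b * (k * r) * b = (b * k * b) * (b * r * b) := by
              calc b * (k * r) * b = b * k * (1 : G) * r * b := by group
                _ = b * k * (b * b) * r * b := by rw [h.hbb]
                _ = _ := by group
          _ = (b * k * b) * r⁻¹ := by rw [hbr]
          _ = k * r := hkr.symm
      calc b * (k * r) = b * (k * r) * (b * b) := by rw [h.hbb, mul_one]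
        _ = (b * (k * r) * b) * b := by group
        _ = k * r * b := by rw [e1]
  have hkr' : k = r⁻¹ := eq_inv_of_mul_eq_one_left hone
  have : k * d = b * k * b := by rw [hd]; group
  rw [← this, ← hn, hkr']
  group

/-- Conjugates of configurations. -/
theorem cfg_conj (h : Cfg H K a b c) {k : G} (hk : k ∈ K) :
    Cfg H K (k⁻¹ * a * k) (k⁻¹ * b * k) (k⁻¹ * c * k) := by
  have hkH : k ∈ H := h.le hk
  have aux : ∀ x : G, k⁻¹ * x * k ∈ K → x ∈ K := by
    intro x hx
    have := K.mul_mem (K.mul_mem hk hx) (K.inv_mem hk)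
    have e : k * (k⁻¹ * x * k) * k⁻¹ = x := by group
    rwa [e] at this
  have auxc : ∀ x m : G, (k⁻¹ * x * k) * m = m * (k⁻¹ * x * k) →
      x * (k * m * k⁻¹) = (k * m * k⁻¹) * x := by
    intro x m e
    calc x * (k * m * k⁻¹) = k * ((k⁻¹ * x * k) * m) * k⁻¹ := by group
      _ = k * (m * (k⁻¹ * x * k)) * k⁻¹ := by rw [e]
      _ = (k * m * k⁻¹) * x := by group
  have auxt : ∀ x y : G, x ∈ H → y ∈ H → y * x ∈ K → y * (k⁻¹ * x * k) ∈ K := by
    intro x y hx hy hyx
    have e : y * (k⁻¹ * x * k) = (y * k⁻¹ * y⁻¹) * (y * x) * k := by group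
    rw [e]
    refine K.mul_mem (K.mul_mem ?_ hyx) hk
    have := h.nor y⁻¹ (H.inv_mem hy) k⁻¹ (K.inv_mem hk)
    rwa [inv_inv] at this
  refine ⟨h.le, ?_, ?_, ?_, h.nor, ?_, ?_, ?_, ?_, ?_, ?_, ?_, ?_, h.odd, ?_⟩
  · exact H.mul_mem (H.mul_mem (H.inv_mem hkH) h.ha) hkH
  · exact H.mul_mem (H.mul_mem (H.inv_mem hkH) h.hb) hkH
  · exact H.mul_mem (H.mul_mem (H.inv_mem hkH) h.hc) hkH
  · calc k⁻¹ * a * k * (k⁻¹ * a * k) = k⁻¹ * (a * a) * k := by group
      _ = 1 := by rw [h.haa]; group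
  · calc k⁻¹ * b * k * (k⁻¹ * b * k) = k⁻¹ * (b * b) * k := by group
      _ = 1 := by rw [h.hbb]; group
  · calc k⁻¹ * c * k * (k⁻¹ * c * k) = k⁻¹ * (c * c) * k := by group
      _ = 1 := by rw [h.hcc]; group
  · calc k⁻¹ * a * k * (k⁻¹ * b * k) * (k⁻¹ * c * k) = k⁻¹ * (a * b * c) * k := by group
      _ = 1 := by rw [h.habc]; group
  · exact fun e => h.ea (aux _ e)
  · exact fun e => h.eb (aux _ e)
  · exact fun e => h.ec (aux _ e)
  · intro y hy
    rcases h.top y hy with e | e | e | e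
    · exact Or.inl e
    · exact Or.inr (Or.inl (auxt a y h.ha hy e))
    · exact Or.inr (Or.inr (Or.inl (auxt b y h.hb hy e)))
    · exact Or.inr (Or.inr (Or.inr (auxt c y h.hc hy e)))
  · intro m hm e1 e2
    have := h.cent (k * m * k⁻¹) (K.mul_mem (K.mul_mem hk hm) (K.inv_mem hk)) (auxc _ _ e1)
      (auxc _ _ e2)
    have e : m = k⁻¹ * (k * m * k⁻¹) * k := by group
    rw [e, this]; group

/-- Elements `x` of `Pt H` of the type of `a` are conjugate to `a` under `K`. -/
theorem conj_of_type' (h : Cfg H K a b c) {x : G} (hxx : x * x = 1)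
    (hxa : x * a ∈ K) : ∃ n : ℕ, (a * x) ^ n ∈ K ∧ ((a * x) ^ n)⁻¹ * a * (a * x) ^ n = x := by
  have hax : a * x ∈ K := by
    have := K.inv_mem hxa
    rwa [mul_inv_rev, inv_eq_of_mul_eq_one_right h.haa, inv_eq_of_mul_eq_one_right hxx] at this
  have hia : a⁻¹ = a := inv_eq_of_mul_eq_one_right h.haa
  have hix : x⁻¹ = x := inv_eq_of_mul_eq_one_right hxx
  have hinv : a * (a * x) * a = (a * x)⁻¹ := by
    rw [mul_inv_rev, hia, hix, ← mul_assoc, h.haa, one_mul]
  obtain ⟨n, hn⟩ := sqrt_pow h hax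
  have hr := inv_sqrt h.haa hinv n
  refine ⟨n, K.pow_mem hax n, ?_⟩
  set r := (a * x) ^ n with hrdef
  -- r⁻¹ a r = a r r = x ; from a r a = r⁻¹: r⁻¹ a = a r
  have e1 : r⁻¹ * a = a * r := by
    rw [← hr, mul_assoc, mul_assoc, h.haa, mul_one]
  rw [e1, mul_assoc, hn, ← mul_assoc, h.haa, one_mul]

theorem conj_of_type (h : Cfg H K a b c) {x : G} (hxx : x * x = 1)
    (hxa : x * a ∈ K) : ∃ r ∈ K, r⁻¹ * a * r = x := by
  obtain ⟨n, h1, h2⟩ := conj_of_type' h hxx hxa
  exact ⟨_, h1, h2⟩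

/-- The type of an involution. -/
theorem types (h : Cfg H K a b c) {x : G} (hx : IsPt H x) : x ∉ K ∧ (x * a ∈ K ∨ x * b ∈ K ∨
    x * c ∈ K) := by
  have h1 : x ∉ K := fun e => hx.2.2 (eq_one_of_sq h e hx.2.1)
  refine ⟨h1, ?_⟩
  rcases h.top x hx.1 with e | e | e | e
  · exact absurd e h1
  · exact Or.inl e
  · exact Or.inr (Or.inl e)
  · exact Or.inr (Or.inr e)

/-- `x` and `y` of types `a` and `b`. -/
theorem reba_ab (h : Cfg H K a b c) {x y : G} (hx : IsPt H x) (hy : IsPt H y) (hxa : x * a ∈ K)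
    (hyb : y * b ∈ K) (hxy : x * y = y * x) : Cfg H K x y (x * y) := by
  obtain ⟨r, hrK, hr⟩ := conj_of_type h hx.2.1 hxa
  set y' := r * y * r⁻¹ with hy'
  have hyH : y ∈ H := hy.1
  have hay' : a * y' = y' * a := by
    have e : a = r * x * r⁻¹ := by rw [← hr]; group
    rw [e, hy']
    calc r * x * r⁻¹ * (r * y * r⁻¹) = r * (x * y) * r⁻¹ := by group
      _ = r * (y * x) * r⁻¹ := by rw [hxy]
      _ = _ := by group
  have hy'y' : y' * y' = 1 := by
    rw [hy']
    calc r * y * r⁻¹ * (r * y * r⁻¹) = r * (y * y) * r⁻¹ := by group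
      _ = 1 := by rw [hy.2.1]; group
  have hy'b : y' * b ∈ K := by
    have e : y' * b = r * (y * r⁻¹ * y⁻¹) * (y * b) := by rw [hy']; group
    rw [e]
    refine K.mul_mem (K.mul_mem hrK ?_) hyb
    have := h.nor y⁻¹ (H.inv_mem hyH) r⁻¹ (K.inv_mem hrK)
    rwa [inv_inv] at this
  obtain ⟨n, hsK, hs⟩ := conj_of_type' h.swap hy'y' hy'b
  set s := (b * y') ^ n with hsdef
  have hab : a * b = b * a := by rw [h.ab, h.ba]
  have has : a * s = s * a := by
    refine comm_pow ?_ n
    exact (show Commute a b from hab).mul_right hay'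
  have hsa : s⁻¹ * a * s = a := by
    rw [mul_assoc, has]; group
  have key := cfg_conj (cfg_conj h hsK) hrK
  rw [hs, hsa, hr] at key
  have e2 : r⁻¹ * y' * r = y := by rw [hy']; group
  rw [e2] at key
  rw [key.ab]
  exact key

/-- REBA in local form. -/
theorem reba_aux (h : Cfg H K a b c) {x y : G} (hx : IsPt H x) (hy : IsPt H y)
    (hxy : x * y = y * x) (hne : x ≠ y) : Cfg H K x y (x * y) := by
  have hyi : y⁻¹ = y := inv_eq_of_mul_eq_one_right hy.2.1
  have same : ∀ z : G, x * z ∈ K → y * z ∈ K → False := by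
    intro z h1 h2
    apply hne
    have h3 : x * y ∈ K := by
      have := K.mul_mem h1 (K.inv_mem h2)
      have e : x * z * (y * z)⁻¹ = x * y⁻¹ := by group
      rwa [e, hyi] at this
    have h4 : x * y = 1 := by
      refine eq_one_of_sq h h3 ?_
      calc x * y * (x * y) = x * y * (y * x) := by rw [hxy]
        _ = x * (y * y) * x := by group
        _ = 1 := by rw [hy.2.1, mul_one, hx.2.1]
    have := eq_inv_of_mul_eq_one_left h4
    rwa [hyi] at this
  rcases (types h hx).2 with ex | ex | ex <;> rcases (types h hy).2 with ey | ey | ey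
  · exact (same _ ex ey).elim
  · exact reba_ab h hx hy ex ey hxy
  · exact reba_ab h.rot.rot.swap hx hy ex ey hxy
  · exact reba_ab h.swap hx hy ex ey hxy
  · exact (same _ ex ey).elim
  · exact reba_ab h.rot hx hy ex ey hxy
  · exact reba_ab h.rot.rot hx hy ex ey hxy
  · exact reba_ab h.rot.swap hx hy ex ey hxy
  · exact (same _ ex ey).elim

end Pool.Agent.FourGp.H45
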