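import Pool.Agent.Lib.MP_fb3619_al.H45.Common

namespace Pool.Agent.FourGp.H45

/-- (The hypothesis is not used.) -/
theorem reba.{u} (_h1 : InvtS.{u}) : RebaS.{u} :=
  fun _ _ _ _ _ _ _ h x y hxy => reba_aux h x.2 y.2 hxy.1 hxy.2

end Pool.Agent.FourGp.H45
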